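import Pool.Agent.helper45.SGC.Spec

/-!
# Row sy:COO (MP_069684_lc)
-/

set_option autoImplicit false

namespace Pool.Agent.SGC

open Finset Pool.Agent.helper38.Neg Pool.Agent.helper55.NT

/-- coordinate functionals on `V` -/
def COO_phi {t : ℕ} (V : Submodule (ZMod 2) (Sg t)) (i : Fin t) : Module.Dual (ZMod 2) V :=
  (LinearMap.proj i : (Sg t) →ₗ[ZMod 2] ZMod 2).comp V.subtype

theorem COO_span {t : ℕ} (V : Submodule (ZMod 2) (Sg t)) :
    Submodule.span (ZMod 2) (Set.range (COO_phi V)) = ⊤ := by
  rw [← Subspace.dualCoannihilator_dualAnnihilator_eq (W := Submodule.span (ZMod 2) (Set.range (COO_phi V)))]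
  have h : (Submodule.span (ZMod 2) (Set.range (COO_phi V))).dualCoannihilator = ⊥ := by
    rw [eq_bot_iff]
    intro x hx
    rw [Submodule.mem_dualCoannihilator] at hx
    rw [Submodule.mem_bot]
    apply Subtype.ext
    funext i
    exact hx (COO_phi V i) (Submodule.subset_span ⟨i, rfl⟩)
  rw [h, Submodule.dualAnnihilator_bot]

theorem COO : COO_stmt := by
  intro t N V hN
  obtain ⟨κ, a, ha, hs, hl⟩ := exists_linearIndependent' (ZMod 2) (COO_phi V)
  rw [COO_span] at hs
  have : Finite κ := Finite.of_injective a ha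
  have : Fintype κ := Fintype.ofFinite κ
  have hc : Fintype.card κ = Module.finrank (ZMod 2) V := by
    have hB := Module.finrank_eq_card_basis (Module.Basis.mk hl (by rw [hs]))
    rw [← hB]
    exact Subspace.dual_finrank_eq
  have hN' : Fintype.card (Fin N) ≤ Fintype.card κ := by
    rw [Fintype.card_fin, hc]
    exact hN
  obtain ⟨e⟩ := Function.Embedding.nonempty_of_card_le hN'
  refine ⟨a ∘ e, fun c h => ?_⟩
  have hl' := hl.comp e e.injective
  rw [Fintype.linearIndependent_iff] at hl'
  funext i
  refine hl' c ?_ i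
  apply LinearMap.ext
  intro γ
  have h1 := h γ.1 γ.2
  rw [LinearMap.sum_apply]
  simpa [COO_phi] using h1

end Pool.Agent.SGC
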