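import Pool.Agent.helper45.SGC.Spec

/-!
# Row sy:CTS (MP_069684_lc): symmetric functions of available functions
-/

set_option autoImplicit false

namespace Pool.Agent.SGC

open Finset Pool.Agent.helper38.Neg Pool.Agent.helper55.NT

/-- the number of the functions `u 0, ..., u (i-1)` which are true at `x` -/
def CTS_c {n k : ℕ} (u : Fin k → Fn n) (i : ℕ) (x : Fin n → Bool) : ℕ :=
  (univ.filter fun l : Fin k => l.val < i ∧ u l x = true).card

/-- exactly `j` of them are true -/
def CTS_E {n k : ℕ} (u : Fin k → Fn n) (i j : ℕ) : Fn n := fun x => decide (CTS_c u i x = j)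

theorem CTS_c_zero {n k : ℕ} (u : Fin k → Fn n) (x : Fin n → Bool) : CTS_c u 0 x = 0 := by
  simp [CTS_c]

theorem CTS_c_le {n k : ℕ} (u : Fin k → Fn n) (i : ℕ) (x : Fin n → Bool) : CTS_c u i x ≤ k := by
  unfold CTS_c
  exact (Finset.card_le_univ _).trans (by simp)

theorem CTS_c_all {n k : ℕ} (u : Fin k → Fn n) (x : Fin n → Bool) :
    CTS_c u k x = (univ.filter fun i => u i x = true).card := by
  unfold CTS_c
  congr 1
  ext l
  simp

theorem CTS_c_succ {n k : ℕ} (u : Fin k → Fn n) (i : Fin k) (x : Fin n → Bool) :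
    CTS_c u (i + 1) x = CTS_c u i x + if u i x = true then 1 else 0 := by
  unfold CTS_c
  split_ifs with h
  · have h1 : (univ.filter fun l : Fin k => l.val < i + 1 ∧ u l x = true) =
        insert i (univ.filter fun l : Fin k => l.val < i ∧ u l x = true) := by
      ext l
      simp only [Finset.mem_filter, Finset.mem_univ, true_and, Finset.mem_insert]
      constructor
      · rintro ⟨h1, h2⟩
        by_cases hl : l = i
        · exact Or.inl hl
        · refine Or.inr ⟨?_, h2⟩
          have : l.val ≠ i.val := fun h => hl (Fin.ext h)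
          omega
      · rintro (rfl | ⟨h1, h2⟩)
        · exact ⟨by omega, h⟩
        · exact ⟨by omega, h2⟩
    rw [h1, Finset.card_insert_of_notMem]
    simp
  · rw [add_zero]
    congr 1
    ext l
    simp only [Finset.mem_filter, Finset.mem_univ, true_and]
    constructor
    · rintro ⟨h1, h2⟩
      refine ⟨?_, h2⟩
      have : l.val ≠ i.val := fun h' => h (by rwa [← Fin.ext h'])
      omega
    · rintro ⟨h1, h2⟩
      exact ⟨by omega, h2⟩

theorem CTS_big {n k : ℕ} (u : Fin k → Fn n) (i j : ℕ) (hj : k + 1 ≤ j) : CTS_E u i j = fun _ => false := by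
  funext x
  have := CTS_c_le u i x
  simp only [CTS_E, decide_eq_false_iff_not]
  omega

theorem CTS_base {n k : ℕ} (F : Set (Fn n)) (u : Fin k → Fn n) : RN F 2 (Set.range (CTS_E u 0)) := by
  refine RN.mono (RN.union (m := 1) (m' := 1) ((Rel.const F true).mono le_rfl subset_rfl le_rfl (by omega))
    ((Rel.const F false).mono le_rfl subset_rfl le_rfl (by omega))) le_rfl ?_ le_rfl
  rintro g ⟨j, rfl⟩
  rcases Nat.eq_zero_or_pos j with rfl | hj
  · refine Or.inl ?_
    rw [Set.mem_singleton_iff]
    funext x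
    simp [CTS_E, CTS_c_zero]
  · refine Or.inr ?_
    rw [Set.mem_singleton_iff]
    funext x
    simp only [CTS_E, CTS_c_zero, decide_eq_false_iff_not]
    omega

theorem CTS_rel {n : ℕ} {F G : Set (Fn n)} {m r m' : ℕ} (h : Rel F m r G) (hm : m ≤ m') (hr : r ≤ m') : RN F m' G :=
  h.mono le_rfl subset_rfl hm hr

theorem CTS_step {n k : ℕ} (u : Fin k → Fn n) (i : Fin k) :
    RN (Set.range u ∪ Set.range (CTS_E u i)) ((k + 2) * 4) (Set.range (CTS_E u (i + 1))) := by
  have key : ∀ j ∈ Finset.range (k + 2), RN (Set.range u ∪ Set.range (CTS_E u i)) 4 {CTS_E u (i + 1) j} := by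
    intro j _
    set F : Set (Fn n) := Set.range u ∪ Set.range (CTS_E u i) with hF
    have hu : u i ∈ F := Or.inl ⟨i, rfl⟩
    have hE : ∀ j, CTS_E u i j ∈ F := fun j => Or.inr ⟨j, rfl⟩
    have h1 : RN F 1 {fun x => !(u i x)} := CTS_rel (Rel.not hu) le_rfl le_rfl
    have h2 : RN (F ∪ {fun x => !(u i x)}) 1 {fun x => CTS_E u i j x && !(u i x)} :=
      CTS_rel (Rel.and (u := CTS_E u i j) (v := fun x => !(u i x)) (Or.inl (hE j)) (Or.inr rfl)) le_rfl (by omega)
    have h3 : RN F (1 + 1) {fun x => CTS_E u i j x && !(u i x)} := RN.trans' h1 h2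
    rcases j with _ | j
    · refine RN.mono h3 le_rfl ?_ (by omega)
      rintro g rfl
      rw [Set.mem_singleton_iff]
      funext x
      simp only [CTS_E, CTS_c_succ]
      cases hx : u i x
      · simp
      · simp
    · have h4 : RN (F ∪ {fun x => CTS_E u i (j + 1) x && !(u i x)}) 1 {fun x => CTS_E u i j x && u i x} :=
        CTS_rel (Rel.and (u := CTS_E u i j) (v := u i) (Or.inl (hE j)) (Or.inl hu)) le_rfl (by omega)
      have h5 := RN.trans h3 h4
      have h6 : RN (F ∪ ({fun x => CTS_E u i (j + 1) x && !(u i x)} ∪ {fun x => CTS_E u i j x && u i x})) 1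
          {fun x => (CTS_E u i (j + 1) x && !(u i x)) || (CTS_E u i j x && u i x)} :=
        CTS_rel (Rel.or (u := fun x => CTS_E u i (j + 1) x && !(u i x)) (v := fun x => CTS_E u i j x && u i x)
          (Or.inr (Or.inl rfl)) (Or.inr (Or.inr rfl))) le_rfl (by omega)
      have h7 := RN.trans' h5 h6
      refine RN.mono h7 le_rfl ?_ (by omega)
      rintro g rfl
      rw [Set.mem_singleton_iff]
      funext x
      simp only [CTS_E, CTS_c_succ]
      cases hx : u i x
      · simp
      · simp
  refine RN.mono (RN.biUnion (Finset.range (k + 2)) (fun j => {CTS_E u (i + 1) j}) key) le_rfl ?_ ?_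
  · rintro g ⟨j, rfl⟩
    by_cases hj : j < k + 2
    · simp only [Set.mem_iUnion]
      exact ⟨j, Finset.mem_range.2 hj, rfl⟩
    · simp only [Set.mem_iUnion]
      refine ⟨k + 1, Finset.mem_range.2 (by omega), ?_⟩
      rw [Set.mem_singleton_iff, CTS_big u _ j (by omega), CTS_big u _ (k + 1) le_rfl]
  · rw [Finset.card_range]

theorem CTS_all {n k : ℕ} (u : Fin k → Fn n) (i : ℕ) (hi : i ≤ k) :
    RN (Set.range u) (2 + i * ((k + 2) * 4)) (Set.range (CTS_E u i)) := by
  induction i with
  | zero => exact RN.mono (CTS_base (Set.range u) u) le_rfl subset_rfl (by omega)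
  | succ i ih =>
    have h1 := ih (by omega)
    have h2 := CTS_step u ⟨i, by omega⟩
    exact RN.mono (RN.trans' h1 h2) le_rfl subset_rfl (le_of_eq (by ring))

theorem CTS_or {n k : ℕ} (u : Fin k → Fn n) (φ : ℕ → Bool) (m : ℕ) :
    RN (Set.range (CTS_E u k)) (m + 1) {fun x => decide (∃ j < m, φ j = true ∧ CTS_c u k x = j)} := by
  induction m with
  | zero =>
    refine RN.mono (CTS_rel (m' := 1) (Rel.const _ false) le_rfl (by omega)) le_rfl ?_ (by omega)
    rintro g rfl
    rw [Set.mem_singleton_iff]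
    funext x
    simp
  | succ m ih =>
    by_cases hφ : φ m = true
    · have h1 : RN (Set.range (CTS_E u k) ∪ {fun x => decide (∃ j < m, φ j = true ∧ CTS_c u k x = j)}) 1
          {fun x => decide (∃ j < m, φ j = true ∧ CTS_c u k x = j) || CTS_E u k m x} :=
        CTS_rel (Rel.or (u := fun x => decide (∃ j < m, φ j = true ∧ CTS_c u k x = j)) (v := CTS_E u k m)
          (Or.inr rfl) (Or.inl ⟨m, rfl⟩)) le_rfl (by omega)
      refine RN.mono (RN.trans' ih h1) le_rfl ?_ le_rfl
      rintro g rfl
      rw [Set.mem_singleton_iff]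
      funext x
      rw [Bool.eq_iff_iff]
      simp only [CTS_E, Bool.or_eq_true, decide_eq_true_eq]
      constructor
      · rintro ⟨j, hj, h2, h3⟩
        by_cases hjm : j = m
        · exact Or.inr (h3.trans hjm)
        · exact Or.inl ⟨j, by omega, h2, h3⟩
      · rintro (⟨j, hj, h2, h3⟩ | h3)
        · exact ⟨j, by omega, h2, h3⟩
        · exact ⟨m, by omega, hφ, h3⟩
    · refine RN.mono ih le_rfl ?_ (by omega)
      rintro g rfl
      rw [Set.mem_singleton_iff]
      funext x
      rw [Bool.eq_iff_iff]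
      simp only [decide_eq_true_eq]
      constructor
      · rintro ⟨j, hj, h2, h3⟩
        have hjm : j ≠ m := by
          rintro rfl
          exact hφ h2
        exact ⟨j, by omega, h2, h3⟩
      · rintro ⟨j, hj, h2, h3⟩
        exact ⟨j, by omega, h2, h3⟩

theorem CTS : CTS_stmt := by
  intro n k u φ
  have h1 := CTS_all u k le_rfl
  have h2 := CTS_or u φ (k + 1)
  have h3 := RN.trans' h1 (RN.mono h2 Set.subset_union_right subset_rfl le_rfl)
  refine RN.mono h3 le_rfl ?_ (by nlinarith)
  rintro g rfl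
  rw [Set.mem_singleton_iff]
  funext x
  rw [← CTS_c_all, Bool.eq_iff_iff]
  simp only [decide_eq_true_eq]
  have hle := CTS_c_le u k x
  constructor
  · intro h
    exact ⟨CTS_c u k x, by omega, h, rfl⟩
  · rintro ⟨j, -, h4, h5⟩
    rw [h5]
    exact h4

end Pool.Agent.SGC
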