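import Pool.Agent.helper45.SGC.Spec

/-!
# Row sy:FLA (MP_069684_lc)
-/

set_option autoImplicit false

namespace Pool.Agent.SGC

open Finset Pool.Agent.helper38.Neg Pool.Agent.helper55.NT

theorem FLA_flc0 {t : ℕ} (c : Cl t) : flc 0 c = c := by
  unfold flc
  simp

theorem FLA_flcadd {t : ℕ} (γ δ : Sg t) (c : Cl t) : flc (γ + δ) c = flc γ (flc δ c) := by
  unfold flc
  simp only [Prod.mk.injEq, true_and]
  funext k
  simp only [Pi.add_apply]
  ring

theorem FLA_self {t : ℕ} (γ : Sg t) : γ + γ = 0 := by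
  funext i
  exact CharTwo.add_self_eq_zero (γ i)

theorem FLA_case {n : ℕ} (p : Fin n) : (∃ c : Cl (tv n), pos c = p) ∨ ∀ c : Cl (tv n), pos c ≠ p := by
  by_cases h : ∃ c : Cl (tv n), pos c = p
  · exact Or.inl h
  · right
    intro c hc
    exact h ⟨c, hc⟩

theorem FLA_zero {n : ℕ} (p : Fin n) : fl (0 : Sg (tv n)) p = p := by
  rcases FLA_case p with ⟨c, rfl⟩ | h
  · rw [fl_pos, FLA_flc0]
  · exact fl_of_not _ _ h

theorem FLA_add {n : ℕ} (γ δ : Sg (tv n)) (p : Fin n) : fl (γ + δ) p = fl γ (fl δ p) := by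
  rcases FLA_case p with ⟨c, rfl⟩ | h
  · rw [fl_pos, fl_pos, fl_pos, FLA_flcadd]
  · rw [fl_of_not _ _ h, fl_of_not _ _ h, fl_of_not _ _ h]

theorem FLA_sat {n : ℕ} (γ : Sg (tv n)) (x : Fin n → Bool) (h : SAT3 n (x ∘ fl γ)) : SAT3 n x := by
  obtain ⟨α, hα⟩ := h
  refine ⟨α + γ, fun c hc => ?_⟩
  have h1 : (x ∘ fl γ) (pos (flc γ c)) = true := by
    simp only [Function.comp_apply, fl_pos]
    rw [← FLA_flcadd, FLA_self, FLA_flc0]
    exact hc
  obtain ⟨k, hk⟩ := hα _ h1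
  refine ⟨k, ?_⟩
  simp only [flc] at hk
  rw [Pi.add_apply, hk, add_assoc, CharTwo.add_self_eq_zero, add_zero]

theorem FLA_xor {n : ℕ} (γ : Sg (tv n)) (x : Fin n → Bool) (h : XOR3 n (x ∘ fl γ)) : XOR3 n x := by
  obtain ⟨α, hα⟩ := h
  refine ⟨α + γ, fun c hc => ?_⟩
  have h1 : (x ∘ fl γ) (pos (flc γ c)) = true := by
    simp only [Function.comp_apply, fl_pos]
    rw [← FLA_flcadd, FLA_self, FLA_flc0]
    exact hc
  have hk := hα _ h1
  simp only [flc, sum_add_distrib] at hk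
  simp only [Pi.add_apply, sum_add_distrib]
  rw [hk, add_assoc, CharTwo.add_self_eq_zero, add_zero]

theorem FLA_comp {n : ℕ} (γ : Sg (tv n)) (x : Fin n → Bool) : (x ∘ fl γ) ∘ fl γ = x := by
  funext p
  simp only [Function.comp_apply]
  rw [← FLA_add, FLA_self, FLA_zero]

theorem FLA : FLA_stmt := by
  intro n
  refine ⟨FLA_zero, FLA_add, fun γ p => by rw [← FLA_add, FLA_self, FLA_zero], fun V => ⟨?_, ?_⟩⟩
  · intro γ _ x
    refine ⟨FLA_sat γ x, fun h => FLA_sat γ _ ?_⟩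
    rw [FLA_comp]
    exact h
  · intro γ _ x
    refine ⟨FLA_xor γ x, fun h => FLA_xor γ _ ?_⟩
    rw [FLA_comp]
    exact h

end Pool.Agent.SGC
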