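import Pool.Agent.helper45.SGC.Spec

/-!
# Row sy:INP (MP_069684_lc)
-/

set_option autoImplicit false

namespace Pool.Agent.SGC

open Finset Pool.Agent.helper38.Neg Pool.Agent.helper55.NT

theorem INP : INP_stmt := by
  intro n r v p γ f b hp hf
  have key : ∀ (e : Fin r) (a : Fin 3 → ZMod 2), pos (v e, a) = p → e ≠ f := by
    rintro e a h rfl
    apply hf
    rw [← h, fl_pos] at hp
    have h1 := congrArg Prod.snd (pos_injective hp)
    unfold Mv
    apply Finset.sum_eq_zero
    intro k _
    have h2 := congrFun h1 k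
    simp only [flc] at h2
    exact add_eq_left.1 h2
  unfold inst
  rw [decide_eq_decide]
  constructor
  · rintro ⟨e, a, h1, h2⟩
    refine ⟨e, a, h1, ?_⟩
    rw [h2, Pi.add_apply, Pi.single_eq_of_ne (key e a h1), add_zero]
  · rintro ⟨e, a, h1, h2⟩
    refine ⟨e, a, h1, ?_⟩
    rw [h2, Pi.add_apply, Pi.single_eq_of_ne (key e a h1), add_zero]

end Pool.Agent.SGC
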