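import Pool.Agent.helper45.SGC.Spec

/-!
# Row sy:SEM (MP_069684_lc)
-/

set_option autoImplicit false

namespace Pool.Agent.SGC

open Finset Pool.Agent.helper38.Neg Pool.Agent.helper55.NT

theorem SEM_F (a : ZMod 2) : a + a = 0 := CharTwo.add_self_eq_zero a

theorem SEM_inst {n r : ℕ} (v : Fin r → Fin 3 → Fin (tv n)) (b : Fin r → ZMod 2) (c : Cl (tv n)) :
    inst v b (pos c) = true ↔ ∃ e, c.1 = v e ∧ ∑ k, c.2 k = b e := by
  unfold inst
  rw [decide_eq_true_iff]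
  constructor
  · rintro ⟨e, a, h1, h2⟩
    have := pos_injective h1
    subst this
    exact ⟨e, rfl, h2⟩
  · rintro ⟨e, h1, h2⟩
    exact ⟨e, c.2, by rw [← h1], h2⟩

theorem SEM_eq3 {n r : ℕ} (v : Fin r → Fin 3 → Fin (tv n)) (b : Fin r → ZMod 2) (α : Sg (tv n))
    (h : ∀ c : Cl (tv n), inst v b (pos c) = true → ∃ k, α (c.1 k) = c.2 k) (e : Fin r) :
    ∑ k, α (v e k) = b e := by
  by_contra hne
  have h1 : ∑ k, (α (v e k) + 1) = b e := by
    have h2 : ∀ a b : ZMod 2, a ≠ b → a + 1 = b := by decide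
    have h3 : ∑ k : Fin 3, (α (v e k) + 1) = ∑ k, α (v e k) + 1 := by
      rw [Finset.sum_add_distrib]
      congr 1
    rw [h3]
    exact h2 _ _ hne
  obtain ⟨k, hk⟩ := h (v e, fun k => α (v e k) + 1) ((SEM_inst v b _).2 ⟨e, rfl, h1⟩)
  simp at hk

theorem SEM_eqX {n r : ℕ} (v : Fin r → Fin 3 → Fin (tv n)) (b : Fin r → ZMod 2) (α : Sg (tv n))
    (h : ∀ c : Cl (tv n), inst v b (pos c) = true → ∑ k, α (c.1 k) = ∑ k, c.2 k) (e : Fin r) :
    ∑ k, α (v e k) = b e := by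
  have h1 : ∑ k : Fin 3, (Pi.single 0 (b e) : Fin 3 → ZMod 2) k = b e := by
    rw [Finset.sum_pi_single']
    simp
  have h2 := h (v e, Pi.single 0 (b e)) ((SEM_inst v b _).2 ⟨e, rfl, h1⟩)
  exact h2.trans h1

theorem SEM : SEM_stmt := by
  intro n r v hb
  refine ⟨⟨⟨0, ?_⟩, ⟨0, ?_⟩⟩, fun f => ⟨?_, ?_⟩⟩
  · intro c hc
    obtain ⟨e, h1, h2⟩ := (SEM_inst v 0 c).1 hc
    by_contra hne
    push Not at hne
    have h3 : ∀ k, c.2 k = 1 := by
      intro k
      have h4 : ∀ a : ZMod 2, (0 : ZMod 2) ≠ a → a = 1 := by decide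
      exact h4 _ (hne k)
    rw [Finset.sum_congr rfl fun k _ => h3 k] at h2
    simp only [sum_const, card_univ, Fintype.card_fin, Pi.zero_apply] at h2
    exact absurd h2 (by decide)
  · intro c hc
    obtain ⟨e, h1, h2⟩ := (SEM_inst v 0 c).1 hc
    simp only [Pi.zero_apply] at h2 ⊢
    rw [h2, sum_const_zero]
  · rintro ⟨α, h⟩
    have h1 := SEM_eq3 v _ α h
    have h2 := hb α
    unfold Mv at h2
    rw [Finset.sum_congr rfl fun e _ => h1 e] at h2
    rw [Finset.sum_pi_single'] at h2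
    simp at h2
  · rintro ⟨α, h⟩
    have h1 := SEM_eqX v _ α h
    have h2 := hb α
    unfold Mv at h2
    rw [Finset.sum_congr rfl fun e _ => h1 e] at h2
    rw [Finset.sum_pi_single'] at h2
    simp at h2

end Pool.Agent.SGC
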