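import Pool.Agent.helper45.SGC.Fin
import Pool.Agent.helper45.SGC.COO
import Pool.Agent.helper45.SGC.CTS
import Pool.Agent.helper45.SGC.FLA
import Pool.Agent.helper45.SGC.INP
import Pool.Agent.helper45.SGC.SEM
import Pool.Agent.helper2.SGC.UNB
import Pool.Agent.helper21.SGC.TSC
import Pool.Agent.helper22.SGC.TSE
import Pool.Agent.helper23.SGC.BAD
import Pool.Agent.helper23.SGC.BIC
import Pool.Agent.helper24.SGC.SCON
import Pool.Agent.helper31.SGC.SPN
import Pool.Agent.helper40.SGC.CMP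
import Pool.Agent.helper40.SGC.EQV
import Pool.Agent.helper50.SGC.DSC
import Pool.Agent.helper50.SGC.LBD
import Pool.Agent.helper51.SGC.SPL
import Pool.Agent.helper67.SGC.NUM
import Pool.Agent.helper71.SGC.EXV
import Pool.Agent.helper72.SGC.CNB
import Pool.Agent.helper75.SGC.COR
import Pool.Agent.helper79.SGC.BIA
import Pool.Agent.helper8.SGC.SMT
import Pool.Agent.helper80.SGC.SNP
import Pool.Agent.helper84.SGC.TRN
import Pool.Agent.helper88.SGC.CNA
import Pool.Agent.helper88.SGC.STB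
import Pool.Agent.helper91.SGC.DUA
import Pool.Agent.helper93.SGC.LGT
import Pool.Agent.helper97.SGC.AVE
import Pool.Agent.helper97.SGC.CNT
import Pool.Agent.helper98.SGC.VEX

/-!
# Project SGC (MP_069684_lc): the rows without hypotheses, and the theorem
-/

set_option autoImplicit false

namespace Pool.Agent.SGC

open Finset Pool.Agent.helper38.Neg Pool.Agent.helper55.NT

theorem aSTB : STB_stmt := STB FLA
theorem aSPN : SPN_stmt := SPN LGT DUA
theorem aCOR : COR_stmt := COR EXV aSPN EQV INP AVE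
theorem aCNT : CNT_stmt := CNT CNA CNB BIA
theorem aUNB : UNB_stmt := UNB aCNT BIC
theorem aVEX : VEX_stmt := VEX COO aUNB BAD SPL BIC
theorem aLBD : LBD_stmt := LBD aSTB aVEX aCOR NUM
theorem aSMT : SMT_stmt := SMT FLA DSC TRN
theorem aCON : CON_stmt := CON CTS
theorem aTSE : TSE_stmt := TSE DSC
theorem aTSC : TSC_stmt := TSC aTSE CMP

/-- The lower bound. -/
theorem all_lower (n s : ℕ) (V : Submodule (ZMod 2) (Sg (tv n))) (C : SCirc n (Fin s)) (hV : Symm V C)
    (hC : (∀ x, C.val x C.out = true ↔ SAT3 n x) ∨ ∀ x, C.val x C.out = true ↔ XOR3 n x) :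
    Nat.card V ≤ (s + 2) ^ 240 := Fin_lower SEM aLBD n s V C hV hC

/-- The threshold. -/
theorem all_thr (V : (n : ℕ) → Submodule (ZMod 2) (Sg (tv n))) :
    [(∃ q : Polynomial ℕ, ∀ n, Nat.card (V n) ≤ q.eval n) ∧ ∀ A, InNPPoly A → InPPoly A,
      ∀ A, InNPPoly A → (∀ n, Inva (V n) (A n)) → SymPoly V A,
      SymPoly V SAT3].TFAE := Fin_thr FLA SEM aLBD aSMT aCON aTSC SNP V

end Pool.Agent.SGC
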