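import Pool.Agent.helper55.NT.Defs

/-!
# Project SGC (MP_069684_lc): circuits with symmetric gates
-/

set_option autoImplicit false

namespace Pool.Agent.SGC

open Finset Pool.Agent.helper38.Neg Pool.Agent.helper55.NT

/-- Sign patterns of the variables. -/
abbrev Sg (t : ℕ) : Type := Fin t → ZMod 2

/-! ### Circuits with symmetric gates -/

/-- Circuits with `n` inputs, gates `W`: the gate `g` is an input gate which reads the bit `p` if `lab g = some p`; otherwise
its value is `fn g m`, where `m` is the number of the gates in `kids g` with value 1. (`rank`: no cycles.) -/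
structure SCirc (n : ℕ) (W : Type) : Type where
  lab : W → Option (Fin n)
  kids : W → Finset W
  fn : W → ℕ → Bool
  rank : W → ℕ
  acyc : ∀ g, ∀ h ∈ kids g, rank h < rank g
  out : W

/-- The value of a gate on the input `x`. -/
def SCirc.val {n : ℕ} {W : Type} (C : SCirc n W) (x : Fin n → Bool) (g : W) : Bool :=
  match C.lab g with
  | some p => x p
  | none => C.fn g ((C.kids g).attach.filter fun h => C.val x h.1 = true).card
termination_by C.rank g
decreasing_by all_goals exact C.acyc _ _ (Subtype.prop _)

theorem SCirc.val_some {n : ℕ} {W : Type} (C : SCirc n W) (x : Fin n → Bool) (g : W) (p : Fin n)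
    (h : C.lab g = some p) : C.val x g = x p := by
  rw [SCirc.val, h]

theorem SCirc.val_none {n : ℕ} {W : Type} (C : SCirc n W) (x : Fin n → Bool) (g : W)
    (h : C.lab g = none) :
    C.val x g = C.fn g ((C.kids g).filter fun h => C.val x h = true).card := by
  have key : ((C.kids g).attach.filter fun h => C.val x h.1 = true).card =
      ((C.kids g).filter fun h => C.val x h = true).card := by
    rw [← Finset.card_map ⟨Subtype.val, Subtype.val_injective⟩]
    congr 1
    ext a
    simp only [mem_map, mem_filter, mem_attach, true_and, Function.Embedding.coeFn_mk,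
      Subtype.exists, exists_and_right, exists_eq_right]
    constructor
    · rintro ⟨h1, h2⟩
      exact ⟨h1, h2⟩
    · rintro ⟨h1, h2⟩
      exact ⟨h1, h2⟩
  rw [SCirc.val, h, ← key]

/-- The permutation `π` of the gates is an automorphism of the circuit over the map `ρ` of the input positions. -/
def Ext {n : ℕ} {W : Type} (C : SCirc n W) (ρ : Fin n → Fin n) (π : Equiv.Perm W) : Prop :=
  (∀ g, C.lab (π g) = (C.lab g).map ρ) ∧ (∀ g, C.kids (π g) = (C.kids g).map π.toEmbedding) ∧
    (∀ g, C.fn (π g) = C.fn g) ∧ π C.out = C.out

end Pool.Agent.SGC
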