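import Pool.Agent.helper55.NT.Dbl
import Pool.Agent.helper45.SGC.Pub

/-!
# Project SGC (MP_069684_lc): circuits which respect sign changes. Definitions
-/

set_option autoImplicit false

namespace Pool.Agent.SGC

open Finset Pool.Agent.helper38.Neg Pool.Agent.helper55.NT

/-! ### Clauses and sign changes -/

/-- The number of variables for words of length `n`: the largest `t` with `t ^ 3 * 2 ^ 3 ≤ n`. -/
def tv (n : ℕ) : ℕ := Nat.findGreatest (fun t => t ^ 3 * 2 ^ 3 ≤ n) n

theorem tv_le (n : ℕ) : tv n ^ 3 * 2 ^ 3 ≤ n :=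
  Nat.findGreatest_spec (P := fun t => t ^ 3 * 2 ^ 3 ≤ n) (m := 0) (Nat.zero_le _) (by simp)

/-- A clause: three variables `c.1 0, c.1 1, c.1 2` and three signs. As a 3SAT clause it says
`α (c.1 k) = c.2 k` for some `k`. -/
abbrev Cl (t : ℕ) : Type := (Fin 3 → Fin t) × (Fin 3 → ZMod 2)

/-- The position of a clause: number `8 m + a` with `m = i₀ + i₁ t + i₂ t²`, `a = a₀ + 2 a₁ + 4 a₂`. -/
def pos {n : ℕ} (c : Cl (tv n)) : Fin n :=
  Fin.castLE (tv_le n)
    (finProdFinEquiv (finFunctionFinEquiv c.1, finFunctionFinEquiv (n := 3) (m := 2) c.2))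

theorem pos_injective {n : ℕ} : Function.Injective (pos : Cl (tv n) → Fin n) := by
  rintro ⟨a, b⟩ ⟨a', b'⟩ h
  have h1 := finProdFinEquiv.injective (Fin.castLE_injective _ h)
  have h2 := finFunctionFinEquiv.injective (congrArg Prod.fst h1)
  have h3 := finFunctionFinEquiv.injective (congrArg Prod.snd h1)
  exact Prod.ext h2 h3

/-- The sign change `γ` on clauses. -/
def flc {t : ℕ} (γ : Sg t) (c : Cl t) : Cl t := (c.1, fun k => c.2 k + γ (c.1 k))

open Classical in
/-- The sign change `γ` on the positions: the position of the clause `c` goes to the position of `flc γ c`, the other positions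
are fixed. -/
noncomputable def fl {n : ℕ} (γ : Sg (tv n)) (p : Fin n) : Fin n :=
  if h : ∃ c : Cl (tv n), pos c = p then pos (flc γ h.choose) else p

theorem fl_pos {n : ℕ} (γ : Sg (tv n)) (c : Cl (tv n)) : fl γ (pos c) = pos (flc γ c) := by
  have h : ∃ c' : Cl (tv n), pos c' = pos c := ⟨c, rfl⟩
  have h1 : h.choose = c := pos_injective h.choose_spec
  unfold fl
  rw [dif_pos h, h1]

theorem fl_of_not {n : ℕ} (γ : Sg (tv n)) (p : Fin n) (h : ∀ c : Cl (tv n), pos c ≠ p) : fl γ p = p := by
  unfold fl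
  rw [dif_neg]
  rintro ⟨c, hc⟩
  exact h c hc

/-- 3SAT: some assignment satisfies all clauses which are present. -/
def SAT3 : Lang := fun n x => ∃ α : Sg (tv n), ∀ c : Cl (tv n), x (pos c) = true → ∃ k, α (c.1 k) = c.2 k

/-- 3XOR: some assignment satisfies the linear equation of every clause which is present. -/
def XOR3 : Lang := fun n x =>
  ∃ α : Sg (tv n), ∀ c : Cl (tv n), x (pos c) = true → ∑ k, α (c.1 k) = ∑ k, c.2 k

/-- The circuit respects the sign changes in `V`: each of them extends to an automorphism. -/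
def Symm {n : ℕ} {W : Type} (V : Submodule (ZMod 2) (Sg (tv n))) (C : SCirc n W) : Prop :=
  ∀ γ ∈ V, ∃ π : Equiv.Perm W, Ext C (fl γ) π

/-- The property `f` of the inputs is invariant under the sign changes in `V`. -/
def Inva {n : ℕ} (V : Submodule (ZMod 2) (Sg (tv n))) (f : (Fin n → Bool) → Prop) : Prop :=
  ∀ γ ∈ V, ∀ x, f (x ∘ fl γ) ↔ f x

/-- Circuits of polynomial size which respect the sign changes in `V n`. -/
def SymPoly (V : (n : ℕ) → Submodule (ZMod 2) (Sg (tv n))) (A : Lang) : Prop :=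
  ∃ p : Polynomial ℕ, ∀ n, ∃ s ≤ p.eval n, ∃ C : SCirc n (Fin s), Symm (V n) C ∧
    ∀ x, C.val x C.out = true ↔ A n x

/-! ### Instances -/

/-- The right hand sides of the equations change by `Mv v γ`. -/
def Mv {r t : ℕ} (v : Fin r → Fin 3 → Fin t) (γ : Sg t) : Fin r → ZMod 2 := fun e => ∑ k, γ (v e k)

/-- The instance: equation `e` says `α (v e 0) + α (v e 1) + α (v e 2) = b e`. -/
def inst {n r : ℕ} (v : Fin r → Fin 3 → Fin (tv n)) (b : Fin r → ZMod 2) : Fin n → Bool := fun p =>
  decide (∃ (e : Fin r) (a : Fin 3 → ZMod 2), pos (v e, a) = p ∧ ∑ k, a k = b e)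

/-- The number of nonzero entries. -/
def hw {r : ℕ} (y : Fin r → ZMod 2) : ℕ := (univ.filter fun e => y e ≠ 0).card

/-- The split pattern of `T` under `σ`: the pairs `p` such that exactly one of `σ (p, 0)`, `σ (p, 1)` is in `T`. -/
def pat {h : ℕ} {E : Type} [DecidableEq E] (σ : Fin h × Fin 2 ≃ E) (T : Finset E) : Finset (Fin h) :=
  univ.filter fun p => ¬ (σ (p, 0) ∈ T ↔ σ (p, 1) ∈ T)

/-! ### Circuits: computations relative to available functions (see `Rel` in helper55/NT/SL.lean) -/

/-- If all functions in `F` are available, all functions in `G` can be computed with `m` further gates. -/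
abbrev RN {n : ℕ} (F : Set (Fn n)) (m : ℕ) (G : Set (Fn n)) : Prop := Rel F m m G

theorem RN.mono {n : ℕ} {F F' G G' : Set (Fn n)} {m m' : ℕ} (h : RN F m G) (hF : F ⊆ F')
    (hG : G' ⊆ G) (hm : m ≤ m') : RN F' m' G' := Rel.mono h hF hG hm hm

theorem RN.trans {n : ℕ} {F G H : Set (Fn n)} {m m' : ℕ} (h : RN F m G) (h' : RN (F ∪ G) m' H) :
    RN F (m + m') (G ∪ H) := Rel.trans h h'

theorem RN.trans' {n : ℕ} {F G H : Set (Fn n)} {m m' : ℕ} (h : RN F m G) (h' : RN (F ∪ G) m' H) :
    RN F (m + m') H := Rel.trans' h h'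

theorem RN.union {n : ℕ} {F G H : Set (Fn n)} {m m' : ℕ} (h : RN F m G) (h' : RN F m' H) :
    RN F (m + m') (G ∪ H) := Rel.union h h'

theorem RN.biUnion {n : ℕ} {ι : Type*} {F : Set (Fn n)} {m : ℕ} (S : Finset ι) (G : ι → Set (Fn n))
    (h : ∀ i ∈ S, RN F m (G i)) : RN F (S.card * m) (⋃ i ∈ S, G i) := by
  classical
  induction S using Finset.induction_on with
  | empty =>
    refine RN.mono (Rel.sub (F := F) (G := ∅) (Set.empty_subset _)) le_rfl ?_ (by simp)
    simp
  | @insert a S ha ih =>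
    have h1 := RN.union (h a (Finset.mem_insert_self _ _))
      (ih fun i hi => h i (Finset.mem_insert_of_mem hi))
    refine RN.mono h1 le_rfl ?_ ?_
    · intro g hg
      simp only [Finset.mem_insert, Set.mem_iUnion, exists_prop, exists_eq_or_imp] at hg
      rcases hg with hg | hg
      · exact Or.inl hg
      · refine Or.inr ?_
        simp only [Set.mem_iUnion, exists_prop]
        exact hg
    · rw [Finset.card_insert_of_notMem ha]
      ring_nf
      omega

theorem RN.toCircuit {n m : ℕ} {g : Fn n} (h : RN ∅ m {g}) :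
    ∃ s ≤ m, ∃ (C : Circuit n s) (o : Fin (n + s)), ∀ x, C.val x o = g x := by
  obtain ⟨s, hs, C, o, -, ho⟩ := Rel.toCircuit h
  exact ⟨s, hs, C, o, ho⟩

/-! ### Gaussian elimination -/

/-- The system `a α = b` is solvable. -/
def Solv {m t : ℕ} (a : Fin m → Fin t → ZMod 2) (b : Fin m → ZMod 2) : Prop :=
  ∃ α : Fin t → ZMod 2, ∀ r, ∑ i, a r i * α i = b r

/-- The indicator of the first row with an entry 1 in column `i`. -/
def piv {m t : ℕ} (a : Fin m → Fin t → ZMod 2) (i : Fin t) (r : Fin m) : ZMod 2 :=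
  if a r i = 1 ∧ ∀ r' < r, a r' i = 0 then 1 else 0

/-- One step of the elimination (coefficients): the first row with an entry 1 in column `i` is added to all rows with an entry 1 in
column `i` (also to itself). -/
def stA {m t : ℕ} (a : Fin m → Fin t → ZMod 2) (i : Fin t) : Fin m → Fin t → ZMod 2 :=
  fun r i' => a r i' + a r i * ∑ r', piv a i r' * a r' i'

/-- One step of the elimination (right hand sides). -/
def stB {m t : ℕ} (a : Fin m → Fin t → ZMod 2) (b : Fin m → ZMod 2) (i : Fin t) : Fin m → ZMod 2 :=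
  fun r => b r + a r i * ∑ r', piv a i r' * b r'

end Pool.Agent.SGC
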