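import Pool.Agent.helper45.SGC.Spec

/-!
# Project SGC (MP_069684_lc): the theorem from the rows
-/

set_option autoImplicit false

namespace Pool.Agent.SGC

open Finset Pool.Agent.helper38.Neg Pool.Agent.helper55.NT

theorem Fin_lower (hSEM : SEM_stmt) (hLBD : LBD_stmt) (n s : ℕ) (V : Submodule (ZMod 2) (Sg (tv n)))
    (C : SCirc n (Fin s)) (hV : Symm V C)
    (hC : (∀ x, C.val x C.out = true ↔ SAT3 n x) ∨ ∀ x, C.val x C.out = true ↔ XOR3 n x) :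
    Nat.card V ≤ (s + 2) ^ 240 := by
  by_contra hlt
  rw [not_le] at hlt
  obtain ⟨r, v, f, hb, he⟩ := hLBD n s V C hV hlt
  obtain ⟨⟨h1, h2⟩, h3⟩ := hSEM n r v hb
  rcases hC with hC | hC
  · exact (h3 f).1 ((hC _).1 (he ▸ (hC _).2 h1))
  · exact (h3 f).2 ((hC _).1 (he ▸ (hC _).2 h2))

theorem Fin_inP (hCON : CON_stmt) (V : (n : ℕ) → Submodule (ZMod 2) (Sg (tv n))) (A : Lang)
    (h : SymPoly V A) : InPPoly A := by
  obtain ⟨p, hp⟩ := h
  refine ⟨p * (8 * (p + 2) ^ 2), fun n => ?_⟩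
  obtain ⟨s, hs, C, -, hC⟩ := hp n
  obtain ⟨s', hs', C', o', h'⟩ := hCON n s C
  refine ⟨s', hs'.trans ?_, C', o', fun x => by rw [h', hC]⟩
  simp only [Polynomial.eval_mul, Polynomial.eval_add, Polynomial.eval_pow, Polynomial.eval_ofNat]
  gcongr

theorem Fin_up (hSMT : SMT_stmt) (V : (n : ℕ) → Submodule (ZMod 2) (Sg (tv n))) (q : Polynomial ℕ)
    (hq : ∀ n, Nat.card (V n) ≤ q.eval n) (A : Lang) (hA : InPPoly A) (hI : ∀ n, Inva (V n) (A n)) :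
    SymPoly V A := by
  obtain ⟨p, hp⟩ := hA
  refine ⟨Polynomial.X + q * p + 1, fun n => ?_⟩
  obtain ⟨s, hs, C, o, hC⟩ := hp n
  obtain ⟨s', hs', C', h1, h2⟩ := hSMT n s (V n) C o (A n) hC (hI n)
  refine ⟨s', hs'.trans ?_, C', h1, h2⟩
  simp only [Polynomial.eval_mul, Polynomial.eval_add, Polynomial.eval_X, Polynomial.eval_one]
  have := Nat.mul_le_mul (hq n) hs
  omega

theorem Fin_thr (hFLA : FLA_stmt) (hSEM : SEM_stmt) (hLBD : LBD_stmt) (hSMT : SMT_stmt) (hCON : CON_stmt)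
    (hTSC : TSC_stmt) (hSNP : SNP_stmt) (V : (n : ℕ) → Submodule (ZMod 2) (Sg (tv n))) :
    [(∃ q : Polynomial ℕ, ∀ n, Nat.card (V n) ≤ q.eval n) ∧ ∀ A, InNPPoly A → InPPoly A,
      ∀ A, InNPPoly A → (∀ n, Inva (V n) (A n)) → SymPoly V A,
      SymPoly V SAT3].TFAE := by
  tfae_have 1 → 2 := fun ⟨⟨q, hq⟩, h⟩ A hA hI => Fin_up hSMT V q hq A (h A hA) hI
  tfae_have 2 → 3 := fun h => h SAT3 hSNP fun n => ((hFLA n).2.2.2 (V n)).1
  tfae_have 3 → 1 := by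
    intro h
    refine ⟨?_, hTSC (Fin_inP hCON V _ h)⟩
    obtain ⟨p, hp⟩ := h
    refine ⟨(p + 2) ^ 240, fun n => ?_⟩
    obtain ⟨s, hs, C, h1, h2⟩ := hp n
    refine (Fin_lower hSEM hLBD n s (V n) C h1 (Or.inl h2)).trans ?_
    simp only [Polynomial.eval_add, Polynomial.eval_pow, Polynomial.eval_ofNat]
    gcongr
  tfae_finish

end Pool.Agent.SGC
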