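import Pool.Agent.helper45.SGC.Defs

/-!
# Project SGC (MP_069684_lc): the symmetry threshold for P/Poly = NP/Poly. Specification

THEOREM. (1) Every circuit with `s` gates (arbitrary symmetric functions of any number of gates) for 3SAT or 3XOR which
respects the sign changes in `V` has `|V| ≤ (s + 2) ^ 240`. (2) For every sequence `V n`: 3SAT has polynomial-size circuits
respecting `V n` iff `|V n|` is polynomially bounded and `P/Poly = NP/Poly`. (3) All languages of `P/Poly` with invariant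
slices have such circuits iff `|V n|` is polynomially bounded iff 3XOR has. Page: /team-store/H7_MP_069684_lc_helper45.md

RULES. Row `X`: file `Pool/Agent/<seat>/SGC/X.lean`, `import Pool.Agent.helper45.SGC.Spec`, `set_option autoImplicit false`,
`namespace Pool.Agent.SGC`, `open Finset Pool.Agent.helper38.Neg Pool.Agent.helper55.NT`, `theorem X (h1 : Y_stmt) ... : X_stmt`
(other statements of this file may be hypotheses, no circles). Auxiliary lemmas prefixed `X_`. No `convert`/`congr!`, no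
`native_decide`, no straight double quotes. Land, lock note DONE, one line to helper45. If a statement looks wrong or
unclear: one line to helper45 at once.
-/

set_option autoImplicit false

namespace Pool.Agent.SGC

open Finset Pool.Agent.helper38.Neg Pool.Agent.helper55.NT

/-! ## A. Automorphisms -/

/-- **EXV** (short). Strong induction on `C.rank g` for the first part (for all `g` of rank `< k`). If `lab g = some p` then
`lab (π g) = some (ρ p)` and both sides are `x (ρ p)` (`SCirc.val_some`). If `lab g = none` then `lab (π g) = none`, `fn (π g) = fn g`, and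
`π` maps the `h ∈ kids g` with `val (x ∘ ρ) h = true` bijectively to the `h' ∈ kids (π g)` with `val x h' = true` (`kids (π g)` is the
`map`; induction hypothesis; `Finset.filter_map`, `Finset.card_map`), `SCirc.val_none`. Second part: the same count. -/
def EXV_stmt : Prop := ∀ (n : ℕ) (W : Type) (C : SCirc n W) (ρ : Fin n → Fin n) (π : Equiv.Perm W), Ext C ρ π →
  ∀ (x : Fin n → Bool) (g : W), C.val (x ∘ ρ) g = C.val x (π g) ∧
    ((C.kids g).filter fun h => C.val (x ∘ ρ) h = true).card =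
      ((C.kids (π g)).filter fun h => C.val x h = true).card

/-- **FLA** (short). `flc 0 c = c`, `flc (γ + δ) c = flc γ (flc δ c)`, `γ + γ = 0`; positions which are not `pos c` are fixed
(`fl_pos`, `fl_of_not`). Invariance: `x ∘ fl γ` contains the clause `c` iff `x` contains `flc γ c`; `α` is good for `x ∘ fl γ` iff
`α + γ` is good for `x` (3SAT: `(α + γ) (c.1 k) = (flc γ c).2 k` iff `α (c.1 k) = c.2 k`; 3XOR: both sides change by
`∑ k, γ (c.1 k)`). -/
def FLA_stmt : Prop := ∀ n : ℕ, (∀ p : Fin n, fl (0 : Sg (tv n)) p = p) ∧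
  (∀ (γ δ : Sg (tv n)) (p : Fin n), fl (γ + δ) p = fl γ (fl δ p)) ∧
  (∀ (γ : Sg (tv n)) (p : Fin n), fl γ (fl γ p) = p) ∧
  ∀ V : Submodule (ZMod 2) (Sg (tv n)), Inva V (SAT3 n) ∧ Inva V (XOR3 n)

/-- **STB** (short, medium; from FLA). `H g = {γ ∈ V | ∃ π, Ext C (fl γ) π ∧ π g = g}`: zero: `π = 1` (`fl 0 = id`); sums: `Ext C ρ π`,
`Ext C ρ' π'` give `Ext C (ρ ∘ ρ') (π * π')`; scalars of `ZMod 2` are 0 and 1. Index: choose `π γ` for `γ ∈ V`. If
`π γ g = π δ g` then `(π δ)⁻¹ * π γ` fixes `g` and is an extension of `fl (γ + δ)` (the inverse of an extension of `fl δ`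
is an extension of `fl δ`, as `fl δ` is an involution), so `γ + δ ∈ H g`. Hence the fibres of `γ ↦ π γ g : V → Fin s`
have at most `|H g|` elements (translate), `|V| ≤ s |H g|`. -/
def STB_stmt : Prop := ∀ (n s : ℕ) (V : Submodule (ZMod 2) (Sg (tv n))) (C : SCirc n (Fin s)), Symm V C →
  ∃ H : Fin s → Submodule (ZMod 2) (Sg (tv n)), ∀ g, H g ≤ V ∧ Nat.card V ≤ s * Nat.card (H g) ∧
    ∀ γ ∈ H g, ∃ π : Equiv.Perm (Fin s), Ext C (fl γ) π ∧ π g = g

/-! ## B. The core -/

/-- **LGT** (medium; Mathlib only). The light words `A' = {y ∈ A | hw y ≤ c}` are closed under sums: `hw (y + y') ≤ hw y + hw y' ≤ 2 c < r - c`,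
so `hw (y + y') ≤ c` by the hypothesis. `U` = the union of the supports (`e ∈ U` iff some `y ∈ A'` has `y e ≠ 0`). For `e ∈ U` exactly half of the
elements of `A'` have `y e = 1` (add the `y₀` with `y₀ e = 1`). Double counting of the pairs `(y, e)`, `y ∈ A'`, `e ∈ U`, `y e = 1`:
`|U| |A'| / 2 = ∑ hw y ≤ c |A'|`, `|A'| ≥ 1`. -/
def LGT_stmt : Prop := ∀ (r c : ℕ) (A : Submodule (ZMod 2) (Fin r → ZMod 2)), 3 * c < r →
  (∀ y ∈ A, hw y ≤ c ∨ r - c ≤ hw y) →
  ∃ U : Finset (Fin r), U.card ≤ 2 * c ∧ ∀ y ∈ A, hw y ≤ c → ∀ e, y e ≠ 0 → e ∈ U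

/-- **DUA** (short, medium; Mathlib only). Double annihilator for the dot product on `Fin r → ZMod 2`. If `w ∉ W` there is a linear
functional which vanishes on `W` and not at `w` (`Submodule.exists_le_ker_of_notMem` or `Submodule.exists_dual_map_eq_bot_of_notMem`); it is
`u ↦ ∑ e, y e * u e` with `y e` = its value at `Pi.single e 1`. -/
def DUA_stmt : Prop := ∀ (r : ℕ) (W : Submodule (ZMod 2) (Fin r → ZMod 2)) (w : Fin r → ZMod 2),
  (∀ y : Fin r → ZMod 2, (∀ u ∈ W, ∑ e, y e * u e = 0) → ∑ e, y e * w e = 0) → w ∈ W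

/-- **SPN** (medium; from LGT, DUA). `A = {y | ∀ γ ∈ H, ∑ e, y e * Mv v γ e = 0}`, a submodule. By the hypothesis its elements have `hw y ≤ c` or
`r - c ≤ hw y`; `U` from LGT. Second claim: if `Mv v γ e = 0` for all `γ ∈ H` then `Pi.single e 1 ∈ A` has weight `1 ≤ c`, so `e ∈ U`. Third claim:
DUA for `W` = image of `H` under the linear map `Mv v`: let `y` be orthogonal to `W`, i.e. `y ∈ A`. If `hw y ≤ c` then `y e ≠ 0` implies `e ∈ U`, `w e = 0`:
`∑ y e w e = 0`. If `r - c ≤ hw y` then `y + 1 ∈ A` (first hypothesis) has weight `r - hw y ≤ c`, so `∑ (y e + 1) w e = 0`, and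
`∑ w e = 0`. -/
def SPN_stmt : Prop := ∀ (r t c : ℕ) (v : Fin r → Fin 3 → Fin t) (H : Submodule (ZMod 2) (Sg t)),
  1 ≤ c → 3 * c < r → (∀ γ ∈ H, ∑ e, Mv v γ e = 0) →
  (∀ y : Fin r → ZMod 2, c < hw y → hw y < r - c → ∃ γ ∈ H, ∑ e, y e * Mv v γ e ≠ 0) →
  ∃ U : Finset (Fin r), U.card ≤ 2 * c ∧ (∀ e, (∀ γ ∈ H, Mv v γ e = 0) → e ∈ U) ∧
    ∀ w : Fin r → ZMod 2, ∑ e, w e = 0 → (∀ e ∈ U, w e = 0) → ∃ γ ∈ H, Mv v γ = w

/-- **EQV** (short, medium). At `p = pos (i, a)`: `fl γ p = pos (i, a + γ ∘ i)`; the left side is true iff for some `e`: `v e = i` and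
`∑ k, (a k + γ (i k)) = b e` (`pos_injective`), i.e. `∑ k, a k = b e + Mv v γ e` (characteristic 2). At other positions both sides
are false (`fl_of_not`). -/
def EQV_stmt : Prop := ∀ (n r : ℕ) (v : Fin r → Fin 3 → Fin (tv n)) (b : Fin r → ZMod 2) (γ : Sg (tv n)),
  inst v b ∘ fl γ = inst v (b + Mv v γ)

/-- **INP** (short). If `p = pos (v f, a)` then `fl γ p = pos (v f, a + γ ∘ v f) = p` gives `γ (v f k) = 0` for all `k`, `Mv v γ f = 0`, a contradiction.
So the value at `p` does not depend on the right hand side of the equation `f`. -/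
def INP_stmt : Prop := ∀ (n r : ℕ) (v : Fin r → Fin 3 → Fin (tv n)) (p : Fin n) (γ : Sg (tv n)) (f : Fin r)
  (b : Fin r → ZMod 2), fl γ p = p → Mv v γ f ≠ 0 → inst v (b + Pi.single f 1) p = inst v b p

/-- **SEM** (short, medium). `α = 0` is good for `inst v 0`: a clause `(v e, a)` with `∑ k, a k = 0` has some `a k = 0` (three ones have sum 1).
Let `α` be good for `inst v b`, `b = Pi.single f 1`. Then `∑ k, α (v e k) = b e` for every `e`: for 3XOR take the clause `(v e, a)` with `∑ a = b e` (for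
example `a = (b e, 0, 0)`); for 3SAT otherwise the clause with `a k = α (v e k) + 1` is present (`∑ a = ∑ α + 1 = b e`) and no `k` satisfies it. Sum
over `e`: `0 = ∑ e, Mv v α e = ∑ e, b e = 1`. -/
def SEM_stmt : Prop := ∀ (n r : ℕ) (v : Fin r → Fin 3 → Fin (tv n)), (∀ γ : Sg (tv n), ∑ e, Mv v γ e = 0) →
  (SAT3 n (inst v 0) ∧ XOR3 n (inst v 0)) ∧
    ∀ f : Fin r, ¬ SAT3 n (inst v (Pi.single f 1)) ∧ ¬ XOR3 n (inst v (Pi.single f 1))

/-- **AVE** (medium; Mathlib only). `|M| · #{h ∈ K | F h (b + e_f)} = ∑ m ∈ M, #{h ∈ K | F h (b + e_f + m)}` (first hypothesis)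
`= ∑ h ∈ K, #{m ∈ M | F h (b + e_f + m)}`. For `h ∈ K` take `f'` and substitute `m ↦ m + (e_f + e_f')` (a bijection of `M`): `b + e_f + m + e_f + e_f' =
(b + m) + e_f'`, so the inner number is `#{m ∈ M | F h (b + m)}`. The same computation for `b`. Divide by `|M| ≥ 1` (`M` is finite). -/
def AVE_stmt : Prop := ∀ (r : ℕ) (W : Type) (K : Finset W) (F : W → (Fin r → ZMod 2) → Bool)
  (M : Submodule (ZMod 2) (Fin r → ZMod 2)) (f : Fin r),
  (∀ b, ∀ m ∈ M, (K.filter fun h => F h (b + m) = true).card = (K.filter fun h => F h b = true).card) →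
  (∀ h ∈ K, ∃ f' : Fin r, Pi.single f 1 + Pi.single f' 1 ∈ M ∧ ∀ b, F h (b + Pi.single f' 1) = F h b) →
  ∀ b, (K.filter fun h => F h (b + Pi.single f 1) = true).card = (K.filter fun h => F h b = true).card

/-- **COR** (medium, long; from EXV, SPN, EQV, INP, AVE). `U g` from SPN for `H g` (`|U g| ≤ 2 c`, `3 c < r`). Claim, by strong induction on
`C.rank g`: for `f ∉ U g` and all `b`: `C.val (inst v (b + e_f)) g = C.val (inst v b) g`; here `e_f = Pi.single f 1`. First, for `γ ∈ H g` and all `b`: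
`C.val (inst v (b + Mv v γ)) g = C.val (inst v b) g` and the same for the number of true kids (EQV, EXV for the extension with `π g = g`). Input gate,
`lab g = some p`: by SPN there is `γ ∈ H g` with `Mv v γ f ≠ 0`; the extension fixes `g`, so `fl γ p = p`: INP. Other gates: AVE with
`K = kids g`, `F h b = C.val (inst v b) h`, `M` = image of `H g` under `Mv v`: for `h ∈ kids g` choose `f' ∉ U g ∪ U h` (`4 c < r`); `e_f + e_f'` has sum 0
and vanishes on `U g`, so it is in `M` (SPN); induction for `h`, `f'`. Conclusion: `b = 0`, `g = C.out`, some `f ∉ U C.out` (`2 c < r`). -/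
def COR_stmt : Prop := ∀ (n s r c : ℕ) (C : SCirc n (Fin s)) (H : Fin s → Submodule (ZMod 2) (Sg (tv n)))
  (v : Fin r → Fin 3 → Fin (tv n)), 1 ≤ c → 4 * c < r →
  (∀ g, ∀ γ ∈ H g, ∃ π : Equiv.Perm (Fin s), Ext C (fl γ) π ∧ π g = g) →
  (∀ γ : Sg (tv n), ∑ e, Mv v γ e = 0) →
  (∀ g, ∀ y : Fin r → ZMod 2, c < hw y → hw y < r - c → ∃ γ ∈ H g, ∑ e, y e * Mv v γ e ≠ 0) →
  ∃ f : Fin r, C.val (inst v 0) C.out = C.val (inst v (Pi.single f 1)) C.out

/-! ## C. Three matchings -/

/-- **COO** (medium; Mathlib only). The coordinate functionals `γ ↦ γ i` (`i : Fin t`) restricted to `V` span the dual space of `V` (a vector of `V` on which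
all of them vanish is 0; or: `Submodule.dualRestrict` is surjective and the coordinates span the dual of `Sg t`). So some of them, `finrank V` many,
form a basis of the dual (`exists_linearIndependent`, `Basis.ofSpan`..., or induction on `N`: if `N < finrank V` coordinates are independent on `V` they
do not span the dual, so another coordinate is not in their span). Take `N` of them. -/
def COO_stmt : Prop := ∀ (t N : ℕ) (V : Submodule (ZMod 2) (Sg t)), N ≤ Module.finrank (ZMod 2) V →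
  ∃ z : Fin N → Fin t, ∀ c : Fin N → ZMod 2, (∀ γ ∈ V, ∑ i, c i * γ (z i) = 0) → c = 0

/-- **BIA** (medium; Mathlib only). `(h-w choose q)² ≤ (2(h-w) choose 2q)` and `4^w ≤ (2 w + 1) (2w choose w)` (`Nat.four_pow_le_two_mul_self_mul_centralBinom`
for `w ≥ 1`, `Nat.centralBinom`), and `(a choose i) (b choose j) ≤ (a + b choose i + j)` (one term of Vandermonde's sum,
`Nat.add_choose_eq`), used for the first inequality (`a = b = h - w`, `i = j = q`) and for
`(2w choose w) (2(h-w) choose 2q) ≤ (2h choose w + 2q)`. Finally `2 w + 1 ≤ 2 h + 1`. -/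
def BIA_stmt : Prop := ∀ h w q : ℕ, w ≤ h →
  (2 ^ w * (h - w).choose q) ^ 2 ≤ (2 * h + 1) * (2 * h).choose (w + 2 * q)

/-- **BIC** (short, medium; Mathlib only). First: binomials are unimodal and symmetric: `Nat.choose_le_succ_of_lt_half_left` (increasing up to the
middle), `Nat.choose_symm`. If `τ ≤ N/2` increase from `c` to `τ`; otherwise replace `τ` by `N - τ ≥ c`. Second: `5^k k! ≤ (5k)(5k-1)...(4k+1)` since
`5 (k - i) ≤ 5 k - i` (`Nat.descFactorial`, `Nat.descFactorial_eq_factorial_mul_choose`), for `k = 2 m`, `5 k = 10 m = 2 (5 m)`. -/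
def BIC_stmt : Prop := (∀ N c τ : ℕ, c ≤ τ → τ + c ≤ N → N.choose c ≤ N.choose τ) ∧
  ∀ m : ℕ, 5 ^ (2 * m) ≤ (2 * (5 * m)).choose (2 * m)

/-- **CNA** (medium; Mathlib only). For a set `T'` of pairs with `|T'| = |T|` let `κ(T')` be the number of the `σ` with `T.map σ.symm = T'`, i.e. with
`∀ q, q ∈ T' ↔ σ q ∈ T`. `κ` is constant on the sets with `|T|` elements (for two such sets there is a permutation `ρ` of the
pairs which maps one to the other; `σ ↦ σ ∘ ρ`; e.g. `Finset.exists_equiv...`/`Equiv.Perm` extending a bijection, `Equiv.subtypeCongr`), and 0 on others; their number is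
`(2h choose |T|)` and the sum of `κ` is the number `(2h)!` of all `σ` (`Fintype.card_equiv`). And `pat σ T = pat (Equiv.refl _) T'` if `T'` is the set above. -/
def CNA_stmt : Prop := ∀ (h : ℕ) (T : Finset (Fin (2 * h))) (S : Finset (Fin h)),
  (univ.filter fun σ : Fin h × Fin 2 ≃ Fin (2 * h) => pat σ T = S).card * (2 * h).choose T.card =
    (2 * h).factorial *
      (univ.filter fun T' : Finset (Fin h × Fin 2) => T'.card = T.card ∧ pat (Equiv.refl _) T' = S).card

/-- **CNB** (medium; Mathlib only). A set `T'` with pattern `S` has exactly one element over every `p ∈ S` (a function `S → Fin 2`) and both or no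
elements over every other `p`: `Q ⊆ univ \ S` the set of the `p` with both; `|T'| = |S| + 2 |Q|`. The map `T' ↦ (function, Q)` is injective. If there is
no such `T'` the number is 0; otherwise `q = (τ - |S|)/2`, and the number is at most `2^|S|` times the number of `Q ⊆ univ \ S` with `q` elements
(`Finset.powersetCard`). -/
def CNB_stmt : Prop := ∀ (h τ : ℕ) (S : Finset (Fin h)),
  (univ.filter fun T' : Finset (Fin h × Fin 2) => T'.card = τ ∧ pat (Equiv.refl _) T' = S).card = 0 ∨
    ∃ q, S.card + 2 * q = τ ∧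
      (univ.filter fun T' : Finset (Fin h × Fin 2) => T'.card = τ ∧ pat (Equiv.refl _) T' = S).card ≤
        2 ^ S.card * (h - S.card).choose q

/-- **CNT** (short; from CNA, CNB, BIA). `κ c = F N`, `N² ≤ (2h + 1) c` where `c = (2h choose |T|)`, `F = (2h)!`: `κ² c² = F² N² ≤ F² (2h+1) c`, divide by
`c > 0` (`|T| ≤ 2h`). -/
def CNT_stmt : Prop := ∀ (h : ℕ) (T : Finset (Fin (2 * h))) (S : Finset (Fin h)),
  (univ.filter fun σ : Fin h × Fin 2 ≃ Fin (2 * h) => pat σ T = S).card ^ 2 * (2 * h).choose T.card ≤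
    (2 * h + 1) * (2 * h).factorial ^ 2

/-- **UNB** (medium; from CNT, BIC). Union bound. `F = (2h)!`, `D = (2h choose c)`. Suppose every triple `σ` (there are `F³`) has a
`T` with `c < |T| < 2h - c` and `(j ↦ pat (σ j) T) ∈ L`. For fixed `T`, `|T| = τ`, and `S ∈ L` the number of these triples is
`κ₀ κ₁ κ₂` with `κ_j² C_τ ≤ (2h+1) F²`, `C_τ = (2h choose τ) ≥ D`. So (real square roots) `κ₀κ₁κ₂ ≤ ((2h+1)/C_τ)^(3/2) F³` and the sum over the `C_τ`
sets of size `τ` is at most `(2h+1)^(3/2) F³ / √C_τ ≤ (2h+1)^(3/2) F³ / √D`; over at most `2h + 1` sizes and `B` elements of `L`: `F³ ≤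
B (2h+1)^(5/2) F³ / √D < F³`, a contradiction. -/
def UNB_stmt : Prop := ∀ (h c B : ℕ) (L : Finset (Fin 3 → Finset (Fin h))), L.card ≤ B →
  B ^ 2 * (2 * h + 1) ^ 5 < (2 * h).choose c →
  ∃ σ : Fin 3 → (Fin h × Fin 2 ≃ Fin (2 * h)), ∀ T : Finset (Fin (2 * h)), c < T.card → T.card + c < 2 * h →
    (fun j => pat (σ j) T) ∉ L

/-- **BAD** (medium; Mathlib only). `L` = all `P` with the property. For `P` let `λ_P : V → ZMod 2`, `λ_P γ = ∑ j, ∑ p ∈ P j, γ (z (j, p))`, a linear functional.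
`P ↦ λ_P` is injective (hypothesis for the difference of the indicator functions `c (j, p) = [p ∈ P j] + [p ∈ P' j]`). `P ∈ L` iff
`λ_P` vanishes on `H`. The functionals on `V` vanishing on `H` are the dual of `V / H`; their number is `2^(finrank V - finrank H) = |V| / |H| ≤ s`
(`Subspace.finrank_add_finrank_dualAnnihilator_eq` or `Submodule.finrank_quotient_add_finrank`, `Module.card_eq_pow_finrank`). (`s = 0` is impossible: `|V| ≥ 1`.) -/
def BAD_stmt : Prop := ∀ (t h s : ℕ) (V H : Submodule (ZMod 2) (Sg t)) (z : Fin 3 × Fin h → Fin t),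
  (∀ c : Fin 3 × Fin h → ZMod 2, (∀ γ ∈ V, ∑ i, c i * γ (z i) = 0) → c = 0) → H ≤ V →
  Nat.card V ≤ s * Nat.card H →
  ∃ L : Finset (Fin 3 → Finset (Fin h)), L.card ≤ s ∧
    ∀ P : Fin 3 → Finset (Fin h), (∀ γ ∈ H, ∑ j, ∑ p ∈ P j, γ (z (j, p)) = 0) → P ∈ L

/-- **SPL** (medium; Mathlib only). `∑ e, y e ∑ j, γ (z (j, (σ_j⁻¹ e).1)) = ∑ j ∑ (p, β), y (σ_j (p, β)) γ (z (j, p))` (substitute `e = σ_j (p, β)`), and
`y (σ_j (p, 0)) + y (σ_j (p, 1))` is 1 if exactly one of the two is nonzero and 0 otherwise (values in `ZMod 2`), i.e. the indicator of `pat`. The first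
claim: the same with `y = 1` (each `p` gets `1 + 1 = 0`). -/
def SPL_stmt : Prop := ∀ (t h : ℕ) (z : Fin 3 × Fin h → Fin t)
  (σ : Fin 3 → (Fin h × Fin 2 ≃ Fin (2 * h))) (γ : Sg t),
  ∑ e, Mv (fun e j => z (j, ((σ j).symm e).1)) γ e = 0 ∧
  ∀ y : Fin (2 * h) → ZMod 2, ∑ e, y e * Mv (fun e j => z (j, ((σ j).symm e).1)) γ e =
    ∑ j, ∑ p ∈ pat (σ j) (univ.filter fun e => y e ≠ 0), γ (z (j, p))

/-- **VEX** (medium; from COO, UNB, BAD, SPL, BIC). `z` from COO with `N = 3 (5 m) = 15 m` (`Fin 3 × Fin (5 m) ≃ Fin (15 m)`). For every gate `g` the set `L g`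
from BAD for `H g`, `|L g| ≤ s`; `L` = their union, `|L| ≤ s²`. UNB with `h = 5 m`, `c = 2 m`, `B = s²`:
`s⁴ (10 m + 1)^5 < 5^(2m) ≤ (10m choose 2m)`. `v e j = z (j, (σ_j⁻¹ e).1)`. SPL: balance; and for `y` with `2m < hw y < 10 m - 2 m`, `T` = its support: if
`∑ y e * Mv v γ e = 0` for all `γ ∈ H g` then the pattern of `T` is in `L g`, a contradiction. -/
def VEX_stmt : Prop := ∀ (t s m : ℕ) (V : Submodule (ZMod 2) (Sg t)) (H : Fin s → Submodule (ZMod 2) (Sg t)),
  1 ≤ m → (∀ g, H g ≤ V ∧ Nat.card V ≤ s * Nat.card (H g)) → 15 * m ≤ Module.finrank (ZMod 2) V →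
  s ^ 4 * (2 * (5 * m) + 1) ^ 5 < 5 ^ (2 * m) →
  ∃ v : Fin (2 * (5 * m)) → Fin 3 → Fin t, (∀ γ : Sg t, ∑ e, Mv v γ e = 0) ∧
    ∀ g, ∀ y : Fin (2 * (5 * m)) → ZMod 2, 2 * m < hw y → hw y < 2 * (5 * m) - 2 * m →
      ∃ γ ∈ H g, ∑ e, y e * Mv v γ e ≠ 0

/-- **NUM** (short, medium; arithmetic). `2^240 ≤ (s+2)^240 < 2^κ` gives `κ ≥ 241`; `m = κ / 15 ≥ 16`, `κ < 15 m + 15 ≤ 16 m`. `(10 m + 1)^5 ≤ 5^m` for `m ≥ 16`
(induction: `161^5 ≤ 5^16`, and `((10 m + 11)/(10 m + 1))^5 ≤ 5`). `s^240 ≤ (s+2)^240 < 2^κ ≤ 2^(16 m)`, so `(s^4)^60 < (2^m)^16 ≤ (5^m)^16 ≤ (5^m)^60`, `s^4 < 5^m`. -/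
def NUM_stmt : Prop := ∀ s κ : ℕ, (s + 2) ^ 240 < 2 ^ κ →
  ∃ m, 1 ≤ m ∧ 15 * m ≤ κ ∧ s ^ 4 * (2 * (5 * m) + 1) ^ 5 < 5 ^ (2 * m)

/-- **LBD** (short; from STB, VEX, COR, NUM). `Nat.card V = 2 ^ finrank V` (`Module.card_eq_pow_finrank`). COR with `r = 2 (5 m)`, `c = 2 m`, `4 c = 8 m < 10 m`. -/
def LBD_stmt : Prop := ∀ (n s : ℕ) (V : Submodule (ZMod 2) (Sg (tv n))) (C : SCirc n (Fin s)), Symm V C →
  (s + 2) ^ 240 < Nat.card V →
  ∃ (r : ℕ) (v : Fin r → Fin 3 → Fin (tv n)) (f : Fin r), (∀ γ : Sg (tv n), ∑ e, Mv v γ e = 0) ∧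
    C.val (inst v 0) C.out = C.val (inst v (Pi.single f 1)) C.out

/-! ## D. Symmetrisation, and back to fan-in two -/

/-- **TRN** (short, medium). Rename the gates by `e = Fintype.equivFin W`: `lab' i = lab (e.symm i)`, `kids' i = (kids (e.symm i)).map e`, ... . `val' x (e g) = val x g` by strong
induction on the rank. If `Ext C ρ π` then `Ext C' ρ (e.symm.trans (π.trans e))`. -/
def TRN_stmt : Prop := ∀ (n : ℕ) (W : Type) [Fintype W] (V : Submodule (ZMod 2) (Sg (tv n))) (C : SCirc n W),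
  Symm V C → ∃ C' : SCirc n (Fin (Fintype.card W)), Symm V C' ∧ ∀ x, C'.val x C'.out = C.val x C.out

/-- **DSC** (medium). Description of a circuit: gate `j` reads the wires `a j`, `b j` and computes the symmetric function `F j`. Induction over the
circuit. Gates: `and i j`, `or i j`: `F = (· && ·)`, `(· || ·)`; `not i`: `a = b = i`, `F p q = !(p && q)`; `const d`: `a = b` = the wire of the gate itself,
`F p q = d`. For `snoc` the old wires are `Fin.castSucc` of the wires (`Fin (n + s)` into `Fin (n + (s + 1))`, `n + (s + 1) = (n + s) + 1`). -/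
def DSC_stmt : Prop := ∀ (n s : ℕ) (C : Circuit n s), ∃ (a b : Fin s → Fin (n + s)) (F : Fin s → Bool → Bool → Bool),
  (∀ j, ((a j : ℕ) < n + j ∧ (b j : ℕ) < n + j) ∨ ∃ d, F j = fun _ _ => d) ∧ (∀ j p q, F j p q = F j q p) ∧
  ∀ x, (∀ i : Fin n, C.val x (Fin.castAdd s i) = x i) ∧
    ∀ j : Fin s, C.val x (Fin.natAdd n j) = F j (C.val x (a j)) (C.val x (b j))

/-- **SMT** (medium, long; from FLA, DSC, TRN). Gates `W = Option (Fin n ⊕ (V × Fin s))`. `wire γ (Fin.castAdd s i) = some (inl (fl γ i))`,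
`wire γ (Fin.natAdd n j) = some (inr (γ, j))`. `some (inl p)` is the input gate of `p`. Gate `some (inr (γ, j))`: if `F j` is constant `d`: no kids, `fn m = d`; otherwise
kids `{wire γ (a j), wire γ (b j)}` and `fn m = F j (1 ≤ m) (1 ≤ m)` if `a j = b j`, `fn m = F j (1 ≤ m) (2 ≤ m)` if not (`wire γ` is injective, `F j` is
symmetric). Gate `none` (output): kids `{wire γ o | γ ∈ V}`, `fn m = (1 ≤ m)`. Ranks: 0, `j + 1`, `s + 1`. By induction `val x (wire γ w) = C.val (x ∘ fl γ) w`; so the output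
is `∃ γ ∈ V, f (x ∘ fl γ)`, i.e. `f x` (`Inva V f`, `0 ∈ V`). `δ ∈ V` extends by `inl p ↦ inl (fl δ p)`, `inr (γ, j) ↦ inr (δ + γ, j)`, `none ↦ none`: it maps
`wire γ w` to `wire (δ + γ) w`. `|W| = n + |V| s + 1`; TRN. -/
def SMT_stmt : Prop := ∀ (n s : ℕ) (V : Submodule (ZMod 2) (Sg (tv n))) (C : Circuit n s) (o : Fin (n + s))
  (f : (Fin n → Bool) → Prop), C.Computes o f → Inva V f →
  ∃ s' ≤ n + Nat.card V * s + 1, ∃ C' : SCirc n (Fin s'), Symm V C' ∧ ∀ x, C'.val x C'.out = true ↔ f x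

/-- **CTS** (medium). Counting. `E i j x` = exactly `j` of the functions `u 0, ..., u (i-1)` are true at `x` (`i, j ≤ k`). `E 0 0 = true`, `E 0 j = false` (`j ≥ 1`);
`E (i+1) j = (E i j && !(u i)) || (E i (j-1) && u i)` (`E (i+1) 0 = E i 0 && !(u i)`): at most 4 gates for every `(i, j)`, `RN.trans`, `RN.biUnion` over `j`, as
`Ti_rel` in helper55/NT/Win.lean. At the end the disjunction of the `E k j` with `φ j = true`. -/
def CTS_stmt : Prop := ∀ (n k : ℕ) (u : Fin k → Fn n) (φ : ℕ → Bool),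
  RN (Set.range u) (8 * (k + 2) ^ 2) {fun x => φ (univ.filter fun i => u i x = true).card}

/-- **CON** (medium; from CTS). Claim, by induction on `k`: `RN ∅ (#{g | rank g < k} * (8 (s+2)²)) {val of the gates of rank < k}`. Step: the gates of rank `k` one after
another (`RN.biUnion`): input gates cost 0 (`Rel.var`); a gate with `lab g = none` is a function of the number of true kids, which have smaller rank (CTS with
`k = |kids g| ≤ s`, enumeration `(kids g).equivFin`). `RN.toCircuit`. -/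
def CON_stmt : Prop := ∀ (n s : ℕ) (C : SCirc n (Fin s)),
  ∃ s' ≤ s * (8 * (s + 2) ^ 2), ∃ (C' : Circuit n s') (o' : Fin (n + s')), ∀ x, C'.val x o' = C.val x C.out

/-! ## E. 3SAT is complete; 3XOR is in P/Poly -/

/-- **CMP** (short, medium). Substitution. Induction over `C`: the new gate is one gate applied to two functions of the previous set. (Wires: `Fin.castAdd` = inputs.) -/
def CMP_stmt : Prop := ∀ (N n s : ℕ) (C : Circuit N s) (u : Fin N → Fn n),
  RN (Set.range u) s (Set.range fun (w : Fin (N + s)) (x : Fin n → Bool) => C.val (fun i => u i x) w)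

/-- **TSE** (medium, long; from DSC). Variables = wires. `bb z = decide (z = 1)` for `z : ZMod 2`. `φ c` is: the constant `true` if `c = (o, o, o; 1, 1, 1)`; otherwise `x i` if
`c = (i, i, i; 1, 1, 1)` with an input wire `i < n`, `!(x i)` if `c = (i, i, i; 0, 0, 0)`; otherwise the constant `true` if for some gate `j`:
`c.1 = (g, a j, b j)` with `g = Fin.natAdd _ j` and `bb (c.2 0 + 1) ≠ F j (bb (c.2 1 + 1)) (bb (c.2 2 + 1))` (the assignment falsifying `c` violates the
gate); otherwise `false`. If `α` satisfies all clauses which are present: `α i = 1` iff `x i = true` for `i < n`; `α o = 1`; for every gate `bb (α g) =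
F j (bb (α (a j))) (bb (α (b j)))` (otherwise the clause with `c.2 k = α (c.1 k) + 1` is present and false). With `y` = the values of `α` on the wires `n, ..., n + w - 1` strong
induction on the wire gives `bb (α k) = C.val (Fin.append x y) k`. Conversely `α k = 1` iff `C.val (Fin.append x y) k = true` satisfies all clauses (a false clause would have `c.2 k =
α (c.1 k) + 1`). -/
def TSE_stmt : Prop := ∀ (n w s : ℕ) (C : Circuit (n + w) s) (o : Fin (n + w + s)),
  ∃ φ : Cl (n + w + s) → Fn n,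
    (∀ c, (∃ d, φ c = fun _ => d) ∨ (∃ i, φ c = fun x => x i) ∨ ∃ i, φ c = fun x => !(x i)) ∧
    ∀ x, (∃ y : Fin w → Bool, C.val (Fin.append x y) o = true) ↔
      ∃ α : Sg (n + w + s), ∀ c, φ c x = true → ∃ k, α (c.1 k) = c.2 k

/-- **TSC** (medium; from TSE, CMP). `t = n + w + s`, `N = t ^ 3 * 2 ^ 3`: `tv N = t` (`Nat.findGreatest`; cubes are increasing). Every `i : Fin N` is `pos c` for exactly one `c`: let
`u i = φ c`. The functions `u i` are available with `2 + n` gates (two constants, `n` negations). CMP for the circuit of `SAT3 N` (size at most `q(N)`). All sizes are polynomials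
in `n` (`w, s ≤ p(n)`, `t ≤ n + 2 p(n)`; `eval_mono` in helper55/NT/Dbl.lean). Transport along `tv N = t`: e.g. generalise over `t'` with `h : tv N = t'`, `subst`. -/
def TSC_stmt : Prop := InPPoly SAT3 → ∀ A, InNPPoly A → InPPoly A

/-- **SNP** (medium). Guess `y : Fin (tv n) → Bool` (`α = 1` iff `y = true`), `tv n ≤ n`. Check: for all clauses `c`: `!(x (pos c)) || (some k : y (c.1 k) = (c.2 k = 1))`: `HasCost.all`,
`HasCost.any`, ... of helper38/Neg/Nondet.lean (as HNP in Pool/Agent/helper13/LN/HNP.lean; the number of clauses is `tv n ^ 3 * 8 ≤ n`). -/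
def SNP_stmt : Prop := InNPPoly SAT3

/-- **GEL** (medium; Mathlib only). If column `i` is zero then `piv = 0` and nothing changes. Otherwise let `r₀` be the first row with `a r₀ i = 1`: `piv` is the
indicator of `r₀` and the new row is `a r + a r i • a r₀`, right hand side `b r + a r i b r₀`. (ii) `a r i + a r i * 1 = 0`. (i) ⇒: linear combination. ⇐: `α` solves the new
system; `α' = α + δ e_i`, `δ = b r₀ + ∑ a r₀ α`; then row `r₀` holds and `∑ a r α' = ∑ a r α + a r i δ = b r`, as `∑ a r α + a r i ∑ a r₀ α = b r + a r i b r₀`. (iii) clear. -/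
def GEL_stmt : Prop := ∀ (m t : ℕ) (a : Fin m → Fin t → ZMod 2) (b : Fin m → ZMod 2) (i : Fin t),
  (Solv a b ↔ Solv (stA a i) (stB a b i)) ∧ (∀ r, stA a i r i = 0) ∧
    ∀ i', (∀ r, a r i' = 0) → ∀ r, stA a i r i' = 0

/-- **GST** (medium, long). Circuits for one step, as functions with available functions: pivot indicators `P r = a r i && !(∃ r' < r, a r' i)` (prefix ORs:
`3 m + 1` gates); sums `R i' = ⨁ r, P r && a r i'` can be computed as disjunctions, because at most one `P r` is true (`2 m + 1` gates each, also for `b`); XOR of two functions: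
5 gates. Total at most `(t + 1) (2 m + 1) + 3 m + 2 + 6 m (t + 1) ≤ 40 (m + t + 2)²`. Use `RN.trans`, `RN.union`, `RN.biUnion`. A generous bound is stated. -/
def GST_stmt : Prop := ∀ (n m t : ℕ) (a : (Fin n → Bool) → Fin m → Fin t → ZMod 2)
  (b : (Fin n → Bool) → Fin m → ZMod 2) (i : Fin t),
  RN ((Set.range fun (q : Fin m × Fin t) (x : Fin n → Bool) => decide (a x q.1 q.2 = 1)) ∪
      Set.range fun (r : Fin m) (x : Fin n → Bool) => decide (b x r = 1))
    (40 * (m + t + 2) ^ 3)
    ((Set.range fun (q : Fin m × Fin t) (x : Fin n → Bool) => decide (stA (a x) i q.1 q.2 = 1)) ∪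
      Set.range fun (r : Fin m) (x : Fin n → Bool) => decide (stB (a x) (b x) i r = 1))

/-- **XPP** (medium; from GEL, GST). Rows = the first `m = tv n ^ 3 * 8` positions, i.e. the clauses; row of `c`: `a x c i = [x (pos c)] #{k | c.1 k = i}` (in `ZMod 2`),
`b x c = [x (pos c)] ∑ k, c.2 k`: then `XOR3 n x` iff `Solv`. These functions are constants or variables. Apply the step for `i = 0, ..., t - 1`: by GEL solvability does not change and
at the end all coefficients are 0 (columns stay 0), so the system is solvable iff all right hand sides are 0: a conjunction of `m` negations. `t ≤ n`, `m ≤ n`: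
polynomially many gates. -/
def XPP_stmt : Prop := InPPoly XOR3

end Pool.Agent.SGC
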